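import Mathlib
import Pool.Agent.Q298.CQ.Stm

/-!
# Project CQ, job CQ-12 (S13): one gamma variable, right-heavy about the centre
-/

set_option autoImplicit false

open MeasureTheory ProbabilityTheory Set
open scoped ENNReal

namespace Pool.Agent.Q166.CQ.J13

open Pool.Agent.Q298.CQ

theorem measurable_rsign : Measurable Real.sign := by
  have : Real.sign = fun r : ℝ => if r < 0 then -1 else if 0 < r then 1 else 0 := rfl
  rw [this]
  exact Measurable.ite measurableSet_Iio measurable_const
    (Measurable.ite measurableSet_Ioi measurable_const measurable_const)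

theorem measurable_phi (s : ℝ) : Measurable (phi s) := by
  unfold phi
  exact measurable_rsign.mul (by fun_prop)

theorem phi_pos (s : ℝ) {x : ℝ} (hx : 0 < x) : phi s x = x ^ s := by
  unfold phi
  rw [Real.sign_of_pos hx, one_mul, abs_of_pos hx]

theorem phi_neg (s x : ℝ) : phi s (-x) = - phi s x := by
  unfold phi
  rw [Real.sign_neg, abs_neg, neg_mul]

theorem intOn_neg {H : ℝ → ℝ} (h : IntegrableOn (fun r => H (-r)) (Ioi 0)) :
    IntegrableOn H (Iic 0) := by
  rw [← Measure.map_neg_eq_self (volume : Measure ℝ)]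
  let m : MeasurableEmbedding fun x : ℝ => -x := (Homeomorph.neg ℝ).measurableEmbedding
  rw [m.integrableOn_map_iff]
  simp_rw [Function.comp_def, neg_preimage, neg_Iic, neg_zero]
  exact Iff.mpr integrableOn_Ici_iff_integrableOn_Ioi h

/-- `log ((1+y)/(1-y)) ≥ 2 y` -/
theorem two_mul_le_log {y : ℝ} (h0 : 0 ≤ y) (h1 : y < 1) :
    2 * y ≤ Real.log (1 + y) - Real.log (1 - y) := by
  have h2 := Real.hasSum_log_sub_log_of_abs_lt_one (x := y) (by rw [abs_of_nonneg h0]; exact h1)
  have h3 := le_hasSum h2 0 (fun j _ => by positivity)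
  simpa using h3

/-- comparison of the density at `m + r` and `m - r` -/
theorem cmp {m b r : ℝ} (hm : 0 < m) (hb : m / 2 < b) (hr : 0 < r) (hrm : r < m) :
    (m - r) ^ b * Real.exp (-(1 / 2 * (m - r))) < (m + r) ^ b * Real.exp (-(1 / 2 * (m + r))) := by
  have h1 : 0 < m - r := by linarith
  have h2 : 0 < m + r := by linarith
  rw [Real.rpow_def_of_pos h1, Real.rpow_def_of_pos h2, ← Real.exp_add, ← Real.exp_add]
  apply Real.exp_lt_exp.2
  have h3 := two_mul_le_log (y := r / m) (by positivity) (by rw [div_lt_one hm]; exact hrm)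
  have h4 : Real.log (1 + r / m) = Real.log (m + r) - Real.log m := by
    rw [← Real.log_div h2.ne' hm.ne']
    congr 1
    field_simp
  have h5 : Real.log (1 - r / m) = Real.log (m - r) - Real.log m := by
    rw [← Real.log_div h1.ne' hm.ne']
    congr 1
    field_simp
  rw [h4, h5] at h3
  have h6 : r < b * (2 * (r / m)) := by
    have : b * (2 * (r / m)) = (b / (m / 2)) * r := by field_simp
    rw [this]
    have h7 : 1 < b / (m / 2) := by rw [one_lt_div (by positivity)]; exact hb
    nlinarith
  have h8 : b * (2 * (r / m)) ≤ b * ((Real.log (m + r) - Real.log m) -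
      (Real.log (m - r) - Real.log m)) :=
    mul_le_mul_of_nonneg_left h3 (by linarith)
  nlinarith

theorem bdd_exp (b : ℝ) : ∃ K : ℝ, 0 < K ∧ ∀ u : ℝ, 0 ≤ u →
    u ^ b * Real.exp (-(1 / 2 * u)) ≤ K * Real.exp (-(1 / 4 * u)) ∨ b < 0 := by
  obtain ⟨N, hN⟩ := exists_nat_ge b
  refine ⟨1 + 4 ^ N * N.factorial, by positivity, fun u hu => ?_⟩
  by_cases hb : b < 0
  · exact Or.inr hb
  left
  push Not at hb
  have h1 : u ^ b ≤ 1 + u ^ N := by
    rcases le_or_gt u 1 with h | h
    · have := Real.rpow_le_one hu h hb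
      have h2 : 0 ≤ u ^ N := by positivity
      linarith
    · have h2 : u ^ b ≤ u ^ (N : ℝ) := Real.rpow_le_rpow_of_exponent_le h.le hN
      rw [Real.rpow_natCast] at h2
      linarith
  have h2 := Real.pow_div_factorial_le_exp (u / 4) (by positivity) N
  have h3 : u ^ N ≤ 4 ^ N * N.factorial * Real.exp (u / 4) := by
    rw [div_pow, div_div, div_le_iff₀ (by positivity)] at h2
    linarith
  have h4 : 1 ≤ Real.exp (u / 4) := Real.one_le_exp (by positivity)
  have h5 : u ^ b ≤ (1 + 4 ^ N * N.factorial) * Real.exp (u / 4) := by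
    nlinarith
  calc u ^ b * Real.exp (-(1 / 2 * u))
      ≤ ((1 + 4 ^ N * N.factorial) * Real.exp (u / 4)) * Real.exp (-(1 / 2 * u)) :=
        mul_le_mul_of_nonneg_right h5 (Real.exp_pos _).le
    _ = (1 + 4 ^ N * N.factorial) * Real.exp (-(1 / 4 * u)) := by
        rw [mul_assoc, ← Real.exp_add]
        congr 2
        ring

theorem t13 : S13 := by
  intro s x m hs hx hm
  have hm0 : (0 : ℝ) < m := by exact_mod_cast hm
  set a : ℝ := ((m : ℝ) + 4) / 2 with ha
  have ha0 : 0 < a := by positivity
  set c : ℝ := (1 / 2 : ℝ) ^ a / Real.Gamma a with hc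
  have hc0 : 0 < c := by
    have := Real.Gamma_pos_of_pos ha0
    positivity
  set f : ℝ → ℝ := gammaPDFReal a (1 / 2) with hf
  have hfpos : ∀ u : ℝ, 0 ≤ u → f u = c * u ^ (a - 1) * Real.exp (-(1 / 2 * u)) := by
    intro u hu
    rw [hf]
    unfold gammaPDFReal
    rw [if_pos hu]
  have hfneg : ∀ u : ℝ, u < 0 → f u = 0 := by
    intro u hu
    rw [hf]
    unfold gammaPDFReal
    rw [if_neg (not_le.2 hu)]
  have hf0 : ∀ u : ℝ, 0 ≤ f u := fun u => gammaPDFReal_nonneg ha0 (by norm_num) u
  have hfm : Measurable f := measurable_gammaPDFReal a (1 / 2)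
  have h1 : ∫ u, phi s (x * (u - m)) ∂(Ga a) = ∫ u, phi s (x * (u - m)) * f u := by
    unfold Ga gammaMeasure
    rw [integral_withDensity_eq_integral_toReal_smul]
    · refine integral_congr_ae (Filter.Eventually.of_forall fun u => ?_)
      simp only [smul_eq_mul]
      unfold gammaPDF
      rw [ENNReal.toReal_ofReal (hf0 u), mul_comm]
    · exact (measurable_gammaPDFReal a (1 / 2)).ennreal_ofReal
    · exact Filter.Eventually.of_forall fun u => ENNReal.ofReal_lt_top
  set H : ℝ → ℝ := fun r => phi s (x * r) * f (r + m) with hH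
  have h2 : ∫ u, phi s (x * (u - m)) * f u = ∫ r, H r := by
    rw [← integral_sub_right_eq_self H (m : ℝ)]
    simp only [hH, sub_add_cancel]
  have hHm : Measurable H := by
    have := measurable_phi s
    fun_prop
  -- the comparison
  have hcmp : ∀ r : ℝ, 0 < r → f (-r + m) < f (r + m) := by
    intro r hr
    have hpos : 0 < f (r + m) := gammaPDFReal_pos ha0 (by norm_num) (by linarith)
    rcases lt_trichotomy (-r + m) 0 with h | h | h
    · rw [hfneg _ h]; exact hpos
    · have e1 : f (-r + m) = 0 := by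
        rw [h, hfpos 0 le_rfl, Real.zero_rpow (by rw [ha]; intro h'; linarith), mul_zero,
          zero_mul]
      rw [e1]; exact hpos
    · rw [hfpos _ h.le, hfpos _ (by linarith), mul_assoc, mul_assoc]
      apply mul_lt_mul_of_pos_left _ hc0
      have := cmp (m := (m : ℝ)) (b := a - 1) (r := r) hm0 (by rw [ha]; linarith) hr (by linarith)
      rw [show -r + (m : ℝ) = m - r by ring, show r + (m : ℝ) = m + r by ring]
      exact this
  -- integrability
  obtain ⟨K, hK0, hK⟩ := bdd_exp (a - 1)
  have ha1 : ¬ (a - 1 < 0) := by rw [ha]; intro h; linarith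
  have hI0 : IntegrableOn (fun r : ℝ => r ^ s * Real.exp (-(1 / 4) * r ^ (1 : ℝ))) (Ioi 0) :=
    integrableOn_rpow_mul_exp_neg_mul_rpow hs one_pos (by norm_num)
  have hbound : ∀ r : ℝ, 0 < r → |H r| ≤ x ^ s * (c * K) *
      (r ^ s * Real.exp (-(1 / 4) * r ^ (1 : ℝ))) := by
    intro r hr
    have e1 : H r = x ^ s * r ^ s * f (r + m) := by
      simp only [hH]
      rw [phi_pos s (by positivity), Real.mul_rpow hx.le hr.le]
    have e2 : f (r + m) ≤ c * K * Real.exp (-(1 / 4) * r ^ (1 : ℝ)) := by
      rw [hfpos _ (by linarith), mul_assoc, mul_assoc]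
      apply mul_le_mul_of_nonneg_left _ hc0.le
      refine ((hK (r + m) (by linarith)).resolve_right ha1).trans ?_
      apply mul_le_mul_of_nonneg_left _ hK0.le
      apply Real.exp_le_exp.2
      rw [Real.rpow_one]
      linarith
    rw [e1, abs_of_nonneg (by have := hf0 (r + m); positivity)]
    calc x ^ s * r ^ s * f (r + m) ≤ x ^ s * r ^ s * (c * K * Real.exp (-(1 / 4) * r ^ (1 : ℝ))) :=
          mul_le_mul_of_nonneg_left e2 (by positivity)
      _ = _ := by ring
  have hint1 : IntegrableOn H (Ioi 0) := by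
    refine Integrable.mono' (hI0.const_mul (x ^ s * (c * K))) hHm.aestronglyMeasurable ?_
    refine (ae_restrict_iff' measurableSet_Ioi).2 (Filter.Eventually.of_forall fun r hr => ?_)
    exact hbound r hr
  have hHneg : ∀ r : ℝ, 0 < r → |H (-r)| ≤ |H r| := by
    intro r hr
    simp only [hH]
    rw [mul_neg, phi_neg, abs_mul, abs_mul, abs_neg, abs_of_nonneg (hf0 _), abs_of_nonneg (hf0 _)]
    exact mul_le_mul_of_nonneg_left (hcmp r hr).le (abs_nonneg _)
  have hint2 : IntegrableOn (fun r => H (-r)) (Ioi 0) := by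
    refine Integrable.mono hint1 (hHm.comp measurable_neg).aestronglyMeasurable ?_
    refine (ae_restrict_iff' measurableSet_Ioi).2 (Filter.Eventually.of_forall fun r hr => ?_)
    exact hHneg r hr
  have hint3 : IntegrableOn H (Iic 0) := intOn_neg hint2
  rw [h1, h2, ← integral_add_compl (measurableSet_Ioi (a := (0 : ℝ)))
    (by
      rw [← integrableOn_univ, ← Iic_union_Ioi (a := (0 : ℝ))]
      exact hint3.union hint1), compl_Ioi]
  have h3 : ∫ r in Iic (0 : ℝ), H r = ∫ r in Ioi (0 : ℝ), H (-r) := by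
    rw [integral_comp_neg_Ioi, neg_zero]
  rw [h3, ← integral_add hint1 hint2]
  have hpos : ∀ r : ℝ, 0 < r → 0 < H r + H (-r) := by
    intro r hr
    simp only [hH]
    rw [mul_neg, phi_neg, phi_pos s (by positivity)]
    have e3 : 0 < (x * r) ^ s := by positivity
    have := hcmp r hr
    nlinarith
  rw [setIntegral_pos_iff_support_of_nonneg_ae]
  · have h4 : Ioi (0 : ℝ) ⊆ Function.support (fun r => H r + H (-r)) ∩ Ioi 0 := by
      intro r hr
      exact ⟨(hpos r hr).ne', hr⟩
    refine lt_of_lt_of_le ?_ (measure_mono h4)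
    simp
  · refine (ae_restrict_iff' measurableSet_Ioi).2 (Filter.Eventually.of_forall fun r hr => ?_)
    exact (hpos r hr).le
  · exact hint1.add hint2

end Pool.Agent.Q166.CQ.J13
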