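import Mathlib
import Pool.Agent.Q298.CQ.Stm

/-!
# Project CQ, job CQ-20 (T6): the law of the square of a Gaussian variable, and of `2 R`
-/

set_option autoImplicit false

open MeasureTheory ProbabilityTheory Set
open scoped ENNReal

namespace Pool.Agent.Q166.CQ

open Pool.Agent.Q298.CQ

theorem lint_gamma (a r : ℝ) (f : ℝ → ℝ≥0∞) (hf : Measurable f) :
    ∫⁻ u, f u ∂(gammaMeasure a r) = ∫⁻ u in Ioi (0 : ℝ), f u *
      ENNReal.ofReal (r ^ a / (Real.Gamma a) * u ^ (a - 1) * Real.exp (-(r * u))) := by
  have hm : Measurable (gammaPDF a r) := (measurable_gammaPDFReal a r).ennreal_ofReal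
  unfold gammaMeasure
  rw [lintegral_withDensity_eq_lintegral_mul _ hm hf,
    ← lintegral_add_compl (fun u => (gammaPDF a r * f) u) (measurableSet_Ioi (a := (0 : ℝ)))]
  have h1 : ∫⁻ u in (Ioi (0 : ℝ))ᶜ, (gammaPDF a r * f) u = 0 := by
    rw [compl_Ioi, ← setLIntegral_congr (Iio_ae_eq_Iic (a := (0 : ℝ)) (μ := volume)),
      setLIntegral_congr_fun (g := fun _ => 0) measurableSet_Iio, lintegral_zero]
    intro u hu
    simp only [Pi.mul_apply]
    rw [gammaPDF_of_neg hu, zero_mul]
  rw [h1, add_zero]
  apply setLIntegral_congr_fun measurableSet_Ioi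
  intro u hu
  simp only [Pi.mul_apply]
  rw [gammaPDF_of_nonneg (le_of_lt hu), mul_comm]

theorem tT6 : T6 := by
  constructor
  · refine Measure.ext_of_lintegral _ fun f hf => ?_
    rw [lintegral_map hf (by fun_prop), gaussianReal_of_var_ne_zero _ one_ne_zero,
      lintegral_withDensity_eq_lintegral_mul _ (measurable_gaussianPDF 0 1) (by fun_prop)]
    unfold Ga
    rw [lint_gamma _ _ f hf]
    set c : ℝ := (1 / 2 : ℝ) ^ (1 / 2 : ℝ) / (Real.Gamma (1 / 2)) with hc
    let g' : ℝ → ℝ≥0∞ := fun u => f u * ENNReal.ofReal (c / 2 * u ^ ((1 / 2 : ℝ) - 1) *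
      Real.exp (-(1 / 2 * u)))
    have hc' : c = (√(2 * Real.pi))⁻¹ := by
      rw [hc, Real.Gamma_one_half_eq, ← Real.sqrt_eq_rpow, Real.sqrt_mul (by norm_num),
        one_div, Real.sqrt_inv]
      field_simp
    have hkey : ∀ x : ℝ, x ≠ 0 → ENNReal.ofReal |2 * x| * g' (x ^ 2) =
        (gaussianPDF 0 1 * fun a => f (a ^ 2)) x := by
      intro x hx
      simp only [g', Pi.mul_apply]
      unfold gaussianPDF
      rw [mul_left_comm, ← ENNReal.ofReal_mul (abs_nonneg _), mul_comm]
      congr 2
      have h1 : (x ^ 2) ^ ((1 / 2 : ℝ) - 1) = |x|⁻¹ := by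
        rw [← sq_abs, ← Real.rpow_natCast, ← Real.rpow_mul (abs_nonneg _)]
        norm_num
        rw [Real.rpow_neg_one]
      rw [h1, abs_mul, abs_two, hc', gaussianPDFReal]
      have h2 : |x| ≠ 0 := abs_ne_zero.2 hx
      field_simp
      simp only [NNReal.coe_one, mul_one, sub_zero]
      ring_nf
    have hd : ∀ x : ℝ, HasDerivAt (fun x : ℝ => x ^ 2) (2 * x) x := by
      intro x
      simpa using hasDerivAt_pow 2 x
    have h1 : ∫⁻ x in Ioi (0 : ℝ), (gaussianPDF 0 1 * fun a => f (a ^ 2)) x =
        ∫⁻ u in Ioi (0 : ℝ), g' u := by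
      have h2 : (fun x : ℝ => x ^ 2) '' Ioi (0 : ℝ) = Ioi 0 := by
        ext u
        constructor
        · rintro ⟨x, hx, rfl⟩
          exact pow_pos (mem_Ioi.1 hx) 2
        · intro hu
          exact ⟨√u, Real.sqrt_pos.2 hu, Real.sq_sqrt (le_of_lt hu)⟩
      conv_rhs => rw [← h2]
      rw [lintegral_image_eq_lintegral_abs_deriv_mul measurableSet_Ioi
        (fun x _ => (hd x).hasDerivWithinAt)]
      · apply setLIntegral_congr_fun measurableSet_Ioi
        intro x hx
        exact (hkey x (ne_of_gt hx)).symm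
      · intro x hx y hy hxy
        exact (pow_left_inj₀ (le_of_lt hx) (le_of_lt hy) two_ne_zero).1 hxy
    have h3 : ∫⁻ x in Iio (0 : ℝ), (gaussianPDF 0 1 * fun a => f (a ^ 2)) x =
        ∫⁻ u in Ioi (0 : ℝ), g' u := by
      have h2 : (fun x : ℝ => x ^ 2) '' Iio (0 : ℝ) = Ioi 0 := by
        ext u
        constructor
        · rintro ⟨x, hx, rfl⟩
          have : x < 0 := hx
          simp only [mem_Ioi]
          nlinarith
        · intro hu
          refine ⟨-√u, ?_, ?_⟩
          · have := Real.sqrt_pos.2 hu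
            simp only [mem_Iio]
            linarith
          · simp only [even_two, Even.neg_pow]
            exact Real.sq_sqrt (le_of_lt hu)
      rw [← h2, lintegral_image_eq_lintegral_abs_deriv_mul measurableSet_Iio
        (fun x _ => (hd x).hasDerivWithinAt)]
      · apply setLIntegral_congr_fun measurableSet_Iio
        intro x hx
        exact (hkey x (ne_of_lt hx)).symm
      · intro x hx y hy hxy
        have h4 : (-x) ^ 2 = (-y) ^ 2 := by simpa using hxy
        have h5 : (0 : ℝ) ≤ -x := by linarith [mem_Iio.1 hx]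
        have h6 : (0 : ℝ) ≤ -y := by linarith [mem_Iio.1 hy]
        exact neg_injective ((pow_left_inj₀ h5 h6 two_ne_zero).1 h4)
    rw [← lintegral_add_compl _ (measurableSet_Ioi (a := (0 : ℝ))), compl_Ioi,
      ← setLIntegral_congr (Iio_ae_eq_Iic (a := (0 : ℝ)) (μ := volume)), h1, h3]
    have hg' : Measurable g' := by
      refine hf.mul ?_
      exact ENNReal.measurable_ofReal.comp (by fun_prop)
    rw [← lintegral_add_left hg']
    apply setLIntegral_congr_fun measurableSet_Ioi
    intro u hu
    have hu' : (0 : ℝ) < u := hu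
    simp only [g']
    rw [← mul_add, ← ENNReal.ofReal_add]
    · congr 2
      ring
    · rw [hc']; positivity
    · rw [hc']; positivity
  · refine Measure.ext_of_lintegral _ fun f hf => ?_
    rw [lintegral_map hf (by fun_prop)]
    unfold Ga E1 expMeasure
    rw [lint_gamma _ _ f hf, lint_gamma _ _ (fun r => f (2 * r)) (by fun_prop)]
    have h2 : (fun x : ℝ => 2 * x) '' Ioi (0 : ℝ) = Ioi 0 := by
      ext u
      constructor
      · rintro ⟨x, hx, rfl⟩
        have : (0 : ℝ) < x := hx
        simp only [mem_Ioi]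
        linarith
      · intro hu
        refine ⟨u / 2, ?_, ?_⟩
        · have : (0 : ℝ) < u := hu
          simp only [mem_Ioi]
          linarith
        · simp only
          ring
    have hd : ∀ x : ℝ, HasDerivAt (fun x : ℝ => 2 * x) 2 x := by
      intro x
      simpa using (hasDerivAt_id x).const_mul (2 : ℝ)
    conv_rhs => rw [← h2]
    rw [lintegral_image_eq_lintegral_abs_deriv_mul measurableSet_Ioi
        (fun x _ => (hd x).hasDerivWithinAt)]
    · apply setLIntegral_congr_fun measurableSet_Ioi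
      intro x hx
      simp only
      rw [mul_left_comm, ← ENNReal.ofReal_mul (abs_nonneg _)]
      congr 2
      norm_num
      rw [show -(1 / 2 * (2 * x)) = -x by ring]
      ring
    · intro x _ y _ hxy
      simpa using hxy

end Pool.Agent.Q166.CQ
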