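import Mathlib
import Pool.Agent.Q298.CQ.Stm

/-!
# Project CQ, job CQ-21 (S15, S16): the laws of `S_a + 2x R + 2y R'`
-/

set_option autoImplicit false

open MeasureTheory ProbabilityTheory Set
open scoped ENNReal

namespace Pool.Agent.Q166.CQ

open Pool.Agent.Q298.CQ

theorem ga_prob (a : ℝ) (ha : 0 < a) : IsProbabilityMeasure (Ga a) :=
  isProbabilityMeasure_gammaMeasure ha (by norm_num)

instance (a : ℝ) : SFinite (Ga a) := by
  unfold Ga gammaMeasure
  infer_instance

theorem measurable_rsign : Measurable Real.sign := by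
  have : Real.sign = fun r : ℝ => if r < 0 then -1 else if 0 < r then 1 else 0 := rfl
  rw [this]
  exact Measurable.ite measurableSet_Iio measurable_const
    (Measurable.ite measurableSet_Ioi measurable_const measurable_const)

theorem measurable_phi (s : ℝ) : Measurable (phi s) := by
  unfold phi
  exact measurable_rsign.mul (by fun_prop)

theorem mpAdd (h5 : T5) {a b : ℝ} (ha : 0 < a) (hb : 0 < b) :
    MeasurePreserving (fun z : ℝ × ℝ => z.1 + z.2) ((Ga a).prod (Ga b)) (Ga (a + b)) :=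
  ⟨by fun_prop, h5 a b ha hb⟩

theorem mp2R (h6 : T6) : MeasurePreserving (fun r : ℝ => 2 * r) E1 (Ga 1) :=
  ⟨by fun_prop, h6.2⟩

theorem lint4 {α β γ δ : Type} [MeasurableSpace α] [MeasurableSpace β] [MeasurableSpace γ]
    [MeasurableSpace δ] (μ₁ : Measure α) (μ₂ : Measure β) (ν₁ : Measure γ) (ν₂ : Measure δ)
    [SFinite μ₁] [SFinite μ₂] [SFinite ν₁] [SFinite ν₂] (h : (α × β) × (γ × δ) → ℝ≥0∞)
    (hh : Measurable h) : ∫⁻ z, h z ∂((μ₁.prod μ₂).prod (ν₁.prod ν₂)) =
      ∫⁻ a, ∫⁻ b, ∫⁻ c, ∫⁻ d, h ((a, b), (c, d)) ∂ν₂ ∂ν₁ ∂μ₂ ∂μ₁ := by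
  rw [lintegral_prod _ hh.aemeasurable, lintegral_prod _ hh.lintegral_prod_right'.aemeasurable]
  refine lintegral_congr fun a => lintegral_congr fun b => ?_
  rw [lintegral_prod _ (by fun_prop)]

theorem rearr {α β γ δ : Type} [MeasurableSpace α] [MeasurableSpace β] [MeasurableSpace γ]
    [MeasurableSpace δ] (μ₁ : Measure α) (μ₂ : Measure β) (ν₁ : Measure γ) (ν₂ : Measure δ)
    [SFinite μ₁] [SFinite μ₂] [SFinite ν₁] [SFinite ν₂] :
    MeasurePreserving (fun z : (α × β) × (γ × δ) => ((z.1.1, z.2.1), (z.1.2, z.2.2)))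
      ((μ₁.prod μ₂).prod (ν₁.prod ν₂)) ((μ₁.prod ν₁).prod (μ₂.prod ν₂)) := by
  refine ⟨by fun_prop, ?_⟩
  refine Measure.ext_of_lintegral _ fun f hf => ?_
  rw [lintegral_map hf (by fun_prop), lint4 _ _ _ _ _ (by fun_prop), lint4 _ _ _ _ _ hf]
  refine lintegral_congr fun a => ?_
  rw [lintegral_lintegral_swap]
  refine Measurable.aemeasurable ?_
  refine Measurable.lintegral_prod_right' (f := fun w : (β × γ) × δ =>
    f ((a, w.1.2), (w.1.1, w.2))) ?_
  fun_prop

theorem indep_sq (n : ℕ) : iIndepFun (fun (i : Fin n) (g : Fin n → ℝ) => g i ^ 2) (G n) := by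
  unfold G
  exact iIndepFun_pi (X := fun (_ : Fin n) (x : ℝ) => x ^ 2)
    fun i => (measurable_id.pow_const 2).aemeasurable

theorem mpI (h5 : T5) (h6 : T6) {n : ℕ} (I : Finset (Fin n)) (hI : I.Nonempty) :
    MeasurePreserving (fun g : Fin n → ℝ => ∑ i ∈ I, g i ^ 2) (G n) (Ga ((I.card : ℝ) / 2)) := by
  have h1 : ∀ i : Fin n, MeasurePreserving (fun g : Fin n → ℝ => g i ^ 2) (G n) (Ga (1 / 2)) := by
    intro i
    have h2 : MeasurePreserving (fun g : Fin n → ℝ => g i) (G n) (gaussianReal 0 1) := by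
      unfold G
      exact measurePreserving_eval _ i
    have h3 : MeasurePreserving (fun x : ℝ => x ^ 2) (gaussianReal 0 1) (Ga (1 / 2)) :=
      ⟨by fun_prop, h6.1⟩
    exact h3.comp h2
  induction hI using Finset.Nonempty.cons_induction with
  | singleton i =>
    simp only [Finset.sum_singleton, Finset.card_singleton, Nat.cast_one]
    exact h1 i
  | cons i s hi hs ih =>
    refine ⟨by fun_prop, ?_⟩
    have h4 : IndepFun (∑ j ∈ s, fun g : Fin n → ℝ => g j ^ 2) (fun g : Fin n → ℝ => g i ^ 2)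
        (G n) :=
      (indep_sq n).indepFun_finsetSum_of_notMem (fun j => by fun_prop) hi
    have h5' := h4.map_add_eq_map_conv_map (by fun_prop) (by fun_prop)
    have h6' : (fun g : Fin n → ℝ => ∑ j ∈ Finset.cons i s hi, g j ^ 2) =
        (∑ j ∈ s, fun g : Fin n → ℝ => g j ^ 2) + fun g : Fin n → ℝ => g i ^ 2 := by
      ext g
      rw [Finset.sum_cons, Pi.add_apply, Finset.sum_apply, add_comm]
    have h7 : (∑ j ∈ s, fun g : Fin n → ℝ => g j ^ 2) =
        fun g : Fin n → ℝ => ∑ j ∈ s, g j ^ 2 := by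
      ext g
      rw [Finset.sum_apply]
    rw [h6', h5', h7, ih.map_eq, (h1 i).map_eq]
    unfold Measure.conv
    rw [h5 _ _ (by
      have : (0 : ℝ) < s.card := by exact_mod_cast hs.card_pos
      positivity) (by norm_num), Finset.card_cons]
    congr 1
    push_cast
    ring

theorem mpIJ (h5 : T5) (h6 : T6) {n : ℕ} (I J : Finset (Fin n)) (hI : I.Nonempty)
    (hJ : J.Nonempty) (hIJ : Disjoint I J) :
    MeasurePreserving (fun g : Fin n → ℝ => (∑ i ∈ I, g i ^ 2, ∑ i ∈ J, g i ^ 2)) (G n)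
      ((Ga ((I.card : ℝ) / 2)).prod (Ga ((J.card : ℝ) / 2))) := by
  refine ⟨by fun_prop, ?_⟩
  have h1 := (indep_sq n).indepFun_finset I J hIJ (fun j => by fun_prop)
  have h2 : IndepFun (fun g : Fin n → ℝ => ∑ i ∈ I, g i ^ 2)
      (fun g : Fin n → ℝ => ∑ i ∈ J, g i ^ 2) (G n) := by
    have h3 := h1.comp (φ := fun v : I → ℝ => ∑ i, v i) (ψ := fun v : J → ℝ => ∑ i, v i)
      (by fun_prop) (by fun_prop)
    have e1 : (fun g : Fin n → ℝ => ∑ i ∈ I, g i ^ 2) =
        (fun v : I → ℝ => ∑ i, v i) ∘ (fun (g : Fin n → ℝ) (i : I) => g i ^ 2) := by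
      ext g
      simp only [Function.comp_apply]
      exact (Finset.sum_coe_sort I (fun i => g i ^ 2)).symm
    have e2 : (fun g : Fin n → ℝ => ∑ i ∈ J, g i ^ 2) =
        (fun v : J → ℝ => ∑ i, v i) ∘ (fun (g : Fin n → ℝ) (i : J) => g i ^ 2) := by
      ext g
      simp only [Function.comp_apply]
      exact (Finset.sum_coe_sort J (fun i => g i ^ 2)).symm
    rw [e1, e2]
    exact h3
  rw [(indepFun_iff_map_prod_eq_prod_map_map (mpI h5 h6 I hI).measurable.aemeasurable
    (mpI h5 h6 J hJ).measurable.aemeasurable).1 h2,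
    (mpI h5 h6 I hI).map_eq, (mpI h5 h6 J hJ).map_eq]

theorem t15 (h5 : T5) (h6 : T6) : S15 := by
  intro n a s x y k l hx hy hxy ha hk hl hk1 hl1
  set I := Finset.univ.filter fun i => a i = x with hI
  set J := Finset.univ.filter fun i => a i = y with hJ
  have hIn : I.Nonempty := Finset.card_pos.1 (by omega)
  have hJn : J.Nonempty := Finset.card_pos.1 (by omega)
  have hd : Disjoint I J := by
    rw [Finset.disjoint_left]
    intro i hi hj
    rw [hI, Finset.mem_filter] at hi
    rw [hJ, Finset.mem_filter] at hj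
    exact hxy (hi.2.symm.trans hj.2)
  have hS : ∀ g : Fin n → ℝ, S a g = x * (∑ i ∈ I, g i ^ 2 - k) + y * (∑ i ∈ J, g i ^ 2 - l) := by
    intro g
    unfold S
    have e1 : ∀ i, a i * (g i ^ 2 - 1) = (if a i = x then x * (g i ^ 2 - 1) else 0) +
        (if a i = y then y * (g i ^ 2 - 1) else 0) := by
      intro i
      rcases ha i with h | h | h
      · rw [h, if_neg (Ne.symm hx), if_neg (Ne.symm hy)]
        ring
      · rw [h, if_pos rfl, if_neg hxy]
        ring
      · rw [h, if_neg (Ne.symm hxy), if_pos rfl]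
        ring
    rw [Finset.sum_congr rfl fun i _ => e1 i, Finset.sum_add_distrib, ← Finset.sum_filter,
      ← Finset.sum_filter, ← hI, ← hJ, ← Finset.mul_sum, ← Finset.mul_sum, Finset.sum_sub_distrib,
      Finset.sum_sub_distrib, Finset.sum_const, Finset.sum_const, hk, hl]
    simp
  have hk0 : (0 : ℝ) < k := by exact_mod_cast hk1
  have hl0 : (0 : ℝ) < l := by exact_mod_cast hl1
  have m1 := mpIJ h5 h6 I J hIn hJn hd
  rw [hk, hl] at m1
  have m2 := m1.prod ((mp2R h6).prod (mp2R h6))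
  have m3 := (rearr (Ga ((k : ℝ) / 2)) (Ga ((l : ℝ) / 2)) (Ga 1) (Ga 1)).comp m2
  have m4 := ((mpAdd h5 (a := (k : ℝ) / 2) (b := 1) (by positivity) one_pos).prod
    (mpAdd h5 (a := (l : ℝ) / 2) (b := 1) (by positivity) one_pos)).comp m3
  rw [show (k : ℝ) / 2 + 1 = (k + 2) / 2 by ring, show (l : ℝ) / 2 + 1 = (l + 2) / 2 by ring] at m4
  rw [← m4.map_eq, integral_map m4.measurable.aemeasurable]
  · unfold Psi
    congr 1
    ext z
    simp only [Function.comp_apply, Prod.map]
    rw [hS]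
    congr 1
    ring
  · refine Measurable.aestronglyMeasurable ?_
    exact (measurable_phi s).comp (by fun_prop)

theorem t16 (h5 : T5) (h6 : T6) : S16 := by
  intro n a s x m hx ha hm hm1
  set I := Finset.univ.filter fun i => a i = x with hI
  have hIn : I.Nonempty := Finset.card_pos.1 (by omega)
  have hS : ∀ g : Fin n → ℝ, S a g = x * (∑ i ∈ I, g i ^ 2 - m) := by
    intro g
    unfold S
    have e1 : ∀ i, a i * (g i ^ 2 - 1) = (if a i = x then x * (g i ^ 2 - 1) else 0) := by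
      intro i
      rcases ha i with h | h
      · rw [h, if_neg (Ne.symm hx)]
        ring
      · rw [h, if_pos rfl]
    rw [Finset.sum_congr rfl fun i _ => e1 i, ← Finset.sum_filter, ← hI, ← Finset.mul_sum,
      Finset.sum_sub_distrib, Finset.sum_const, hm]
    simp
  have hm0 : (0 : ℝ) < m := by exact_mod_cast hm1
  have m1 := mpI h5 h6 I hIn
  rw [hm] at m1
  have m2 := m1.prod ((mpAdd h5 (a := 1) (b := 1) one_pos one_pos).comp
    ((mp2R h6).prod (mp2R h6)))
  have m4 := (mpAdd h5 (a := (m : ℝ) / 2) (b := 1 + 1) (by positivity) (by norm_num)).comp m2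
  rw [show (m : ℝ) / 2 + (1 + 1) = (m + 4) / 2 by ring] at m4
  rw [← m4.map_eq, integral_map m4.measurable.aemeasurable]
  · unfold Psi
    congr 1
    ext z
    simp only [Function.comp_apply, Prod.map]
    rw [hS]
    congr 1
    ring
  · refine Measurable.aestronglyMeasurable ?_
    exact (measurable_phi s).comp (by fun_prop)

end Pool.Agent.Q166.CQ
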